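import Pool.Agent.R775.HL.Close

/-!
# The `C^r` closing lemma for diffeomorphisms which are hyperbolic transversally to homogeneous leaves

`V n = ℝⁿ`, `DiffM n N r = Diff^r(N)`, `strongTop n N r` is its strong (Whitney) `C^r` topology (the
usual one, `N` being compact), `IsPer G z`: `z` is periodic for `G` (`Pool/Agent/H718R2/G0.lean`).

`HomHyp n N F z` (`Pool/Agent/R775/HL/Defs.lean`): a topological group `G` acts on an open set `O`, the
*leaves* are the orbits, and there is a closed set `K ⊆ O`, a union of leaves, with `F(K) ⊆ K`, such that
* `CompactLeaves`: `G` is a compact Lie group acting smoothly and `F` commutes with the action on `O`, or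
  `NilLeaves`: `G` is a simply connected nilpotent Lie group acting smoothly, all leaves in `O` are
  compact nilmanifolds `G / Γ` (`IsNilAction`, `IsNilPt` of `Pool/Agent/R189/NC/Defs.lean`), and `F` maps
  the leaves in `O` to leaves by affine maps, `F (g y) = φ(g) F(y)` with endomorphisms `φ` of `G`, which
  may depend on `y` and need not be isometric in any sense (they may be hyperbolic, unipotent, ...);
* `TransHyp`: on `K` the map `F` is hyperbolic transversally to the leaves: there are maps `Φ s`,
  `s ∈ ℝᵏ`, of class `C¹`, which move the points of `O` inside their leaves, `Φ 0 = id`, with injective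
  derivative in `s` on `K`, and continuous quadratic forms `Q_x(v) = B_x (De v, De v)` on the tangent
  spaces, of any signature, which do not change in the directions of `Φ` and increase strictly under `DF`
  on all other vectors; the orbits in `K` are uniformly compact;
* `ChainRecMod`: `z` is chain recurrent in `K` modulo the leaves, i.e. its leaf is chain recurrent for
  the map induced by `F` on the leaves in `K`.
Nothing is required of `F` outside of `O`. For example `F` is an automorphism of a bundle with fibre
`G / Γ` over a compact manifold `M`, given by affine maps on the fibres, `f` is the induced map of `M`,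
`Λ` is a hyperbolic set of `f`, and `z` is ANY point in the fibre over a point of `Λ` which is chain
recurrent for `f` on `Λ`.
-/

set_option autoImplicit false

open scoped Manifold ContDiff Topology

namespace Pool.Agent.Results.MP_1e8d1a_an.HomogeneousLeaves

open Pool.Agent.H718R2.G Pool.Agent.R775.HL Pool.Agent.TH382.QC

/-- Let `N` be a closed manifold, `1 ≤ r ≤ ∞`, `F ∈ Diff^r(N)` and `z ∈ N`. Suppose that arbitrarily
`C^r`-close to `F` there are diffeomorphisms `F'` (for example `F' = F`) which are hyperbolic transversally
to homogeneous leaves on a closed set in which `z` is chain recurrent modulo the leaves. Then the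
conclusion of the `C^r` closing lemma holds for `F` at `z`. -/
theorem result {n : ℕ} {N : Type*} [TopologicalSpace N] [T2Space N] [CompactSpace N]
    [ChartedSpace (V n) N] [IsManifold (𝓡 n) ∞ N] (r : ℕ∞) (hr : 1 ≤ r) (F : DiffM n N r) (z : N)
    (h : ∀ U : Set (DiffM n N r), IsOpen[strongTop n N r] U → F ∈ U →
      ∃ F' : DiffM n N r, F' ∈ U ∧ HomHyp n N F' z) :
    ∀ U : Set (DiffM n N r), IsOpen[strongTop n N r] U → F ∈ U → ∃ G ∈ U, IsPer G z := by
  intro U hU hFU
  obtain ⟨F', hF', hyp⟩ := h U hU hFU
  exact closable r hr F' hyp U hU hF'

/-- Special case: `R` is a free smooth action of the torus `𝕋ᵃ` on `N` (stabilisers `ℤᵃ`), `F` maps the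
orbits to orbits by affine maps with an ARBITRARY linear part `L`, and `F` is hyperbolic transversally to
the orbits on the closed set `K`. -/
theorem torus_bundle {n a m : ℕ} {N : Type*} [TopologicalSpace N] [T2Space N] [CompactSpace N]
    [ChartedSpace (V n) N] [IsManifold (𝓡 n) ∞ N] (r : ℕ∞) (hr : 1 ≤ r) (F : DiffM n N r)
    {R : V a → N → N} (hR : IsTorusAct a n N R)
    (hfree : ∀ y, ∀ s : V a, R s y = y → ∀ j, ∃ l : ℤ, s j = (l : ℝ))
    (L : V a →+ V a) (hF : ∀ s y, F (R s y) = R (L s) (F y)) {K : Set N} {e : N → V m}
    {B : N → V m →L[ℝ] V m →L[ℝ] ℝ}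
    (h : TransHyp (n := n) F Set.univ (fun (g : Multiplicative (V a)) y => R g.toAdd y) K R e B)
    (z : N) (hz : ChainRecMod (fun (g : Multiplicative (V a)) y => R g.toAdd y) F K z) :
    ∀ U : Set (DiffM n N r), IsOpen[strongTop n N r] U → F ∈ U → ∃ G ∈ U, IsPer G z :=
  closable r hr F (torus_homHyp hR hfree L hF h hz)

end Pool.Agent.Results.MP_1e8d1a_an.HomogeneousLeaves
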