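import Pool.Agent.R189.NC.Toral

/-!
# The `C^r` closing lemma at limits of periodic nilmanifolds with affine return maps

`V n = ℝⁿ`, `DiffM n N r = Diff^r(N)`, `strongTop n N r` is its strong (Whitney) `C^r` topology (the
usual one, `N` being compact), `IsPer G z`: `z` is periodic for `G` (`Pool/Agent/H718R2/G0.lean`);
`ClosableAt n N r F z`: every neighbourhood of `F` in `Diff^r(N)` contains some `G` for which `z` is
periodic, `IsTorusAct e n N R`: `R` is a smooth action of `ℝᵉ/ℤᵉ` (`Pool/Agent/TH382/QC/Defs.lean`).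

From `Pool/Agent/R189/NC/Defs.lean`:
* `IsNilAction n N ι O act`: smooth action of the nilpotent Lie group `G`, given by a faithful
  representation `ι` by unitriangular real matrices, on the open set `O ⊆ N`;
* `IsNilPt ι act y`: the stabiliser `Γ` of `y` is a cocompact arithmetic subgroup of `G` (commensurable
  with a conjugate of the group of the integral elements), and `G` is generated by the one parameter
  subgroups `c` with `c 1 ∈ Γ`; by Malcev's theorems this holds for all lattices of simply connected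
  nilpotent Lie groups;
* `IsNilPer n N F y`: `y` lies on a periodic nilmanifold: `G` acts smoothly on an open set containing `y`,
  `C = G y ≅ G / Γ` with `Γ` as above, `F^m(C) ⊆ C`, the sets `F^i(C)`, `0 < i < m`, do not meet `C`, and
  `F^m` is on `C` an affine map `g y ↦ h φ(g) y` with an ARBITRARY `h ∈ G` and an ARBITRARY endomorphism
  `φ` of the group `G` (hyperbolic, partially hyperbolic, unipotent, ...). Nothing is required of `F`
  elsewhere.

The last three theorems are special cases:
* affine extensions `F y = A(y) · F₀(y)`, with `A` invariant under the action of `G` and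
  `F₀ (g y) = φ(g) F₀(y)`, of maps `F₀` which can be closed modulo `G` (`IsSkew`, `BaseClosable`), such as
  `F (x, g Γ) = (f(x), A(x) φ(g) Γ)` on `M × G / Γ` for all `f ∈ Diff^r(M)` which can be closed at `x`;
* quasi-periodic affine nilpotent cocycles, such as `F (x, g Γ) = (x + α, A(x) φ(g) Γ)` on
  `𝕋ᵉ × G / Γ` for all `α` and all smooth `A : 𝕋ᵉ → G`, at all points;
* the case `G = ℝᵉ`: diffeomorphisms mapping the orbits of a torus action to orbits by affine maps, such
  as `F (x, θ) = (f(x), L θ + ω(x))` on `M × 𝕋ᵉ` with `L ∈ GL(e, ℤ)` and smooth `ω : M → 𝕋ᵉ`.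
-/

set_option autoImplicit false

open scoped Manifold ContDiff Topology

namespace Pool.Agent.Results.MP_1e8d1a_an.NilAffineClosing

open Pool.Agent.H718R2.G Pool.Agent.TH382.QC Pool.Agent.R189.NC

/-- Let `N` be a closed manifold, `F ∈ Diff^r(N)` (`0 ≤ r ≤ ∞`) and `z ∈ N`. Suppose that arbitrarily
`C^r`-close to `F` there are diffeomorphisms `F'` (for example `F' = F`) for which `z` is a limit of
points lying on periodic nilmanifolds on which the return map is affine. Then the conclusion of the `C^r`
closing lemma holds for `F` at `z`. -/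
theorem result {n : ℕ} {N : Type*} [TopologicalSpace N] [T2Space N] [CompactSpace N]
    [ChartedSpace (V n) N] [IsManifold (𝓡 n) ∞ N] (r : ℕ∞) (F : DiffM n N r) (z : N)
    (h : ∀ U : Set (DiffM n N r), IsOpen[strongTop n N r] U → F ∈ U →
      ∃ F' ∈ U, z ∈ closure {y | IsNilPer n N F' y}) :
    ∀ U : Set (DiffM n N r), IsOpen[strongTop n N r] U → F ∈ U → ∃ G ∈ U, IsPer G z :=
  main F z h

/-- Special case: affine extensions of maps which can be closed. -/
theorem affine_extension {n d : ℕ} {N : Type*} [TopologicalSpace N] [T2Space N] [CompactSpace N]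
    [ChartedSpace (V n) N] [IsManifold (𝓡 n) ∞ N] (r : ℕ∞) {G : Type} [Group G] [TopologicalSpace G]
    [IsTopologicalGroup G] {ι : G →* Md d} {ρ : G → N → N} (hρ : IsNilAction n N ι Set.univ ρ)
    {φ : G →* G} {A : N → G} (F₀ F : DiffM n N r) (hF : IsSkew ρ φ A F₀ F) (z : N)
    (hz : IsNilPt ι ρ z) (hc : BaseClosable n N r ρ φ F₀ z) : ClosableAt n N r F z :=
  extension hρ F₀ F hF z hz hc

/-- Special case: quasi-periodic affine cocycles with values in nilpotent groups. -/
theorem quasiperiodic_cocycle {n d e : ℕ} {N : Type*} [TopologicalSpace N] [T2Space N]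
    [CompactSpace N] [ChartedSpace (V n) N] [IsManifold (𝓡 n) ∞ N] (r : ℕ∞) {G : Type} [Group G]
    [TopologicalSpace G] [IsTopologicalGroup G] {ι : G →* Md d} {ρ : G → N → N}
    (hρ : IsNilAction n N ι Set.univ ρ) {R : V e → N → N} (hR : IsTorusAct e n N R)
    (hRρ : ∀ a g y, R a (ρ g y) = ρ g (R a y)) (α : V e) {φ : G →* G} (Φ : DiffM n N r)
    (hΦ : Equi ρ φ Φ) (hΦR : ∀ a y, Φ (R a y) = R a (Φ y)) {A : N → G}
    (hA : ∀ g y, A (ρ g y) = A y) (F : DiffM n N r) (hF : ∀ y, F y = ρ (A y) (R α (Φ y)))
    (z : N) (hz : IsNilPt ι ρ z) (hΦz : ∃ k, Φ z = ρ k z) : ClosableAt n N r F z :=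
  quasiperiodic hρ hR hRρ α Φ hΦ hΦR hA F hF z hz hΦz

/-- Special case: maps which act on the orbits of a torus action by affine maps. -/
theorem toral_extension {n e : ℕ} {N : Type*} [TopologicalSpace N] [T2Space N] [CompactSpace N]
    [ChartedSpace (V n) N] [IsManifold (𝓡 n) ∞ N] (r : ℕ∞) {R : V e → N → N}
    (hR : IsTorusAct e n N R) (L : V e →+ V e) (F : DiffM n N r)
    (hF : ∀ a y, F (R a y) = R (L a) (F y)) (z : N)
    (hz : ∀ a : V e, R a z = z → ∀ j, ∃ m : ℤ, a j = (m : ℝ))
    (hc : ∀ U : Set (DiffM n N r), IsOpen[strongTop n N r] U → F ∈ U →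
      ∃ H ∈ U, (∀ a y, H (R a y) = R (L a) (H y)) ∧ ∃ q : ℕ, 1 ≤ q ∧ ∃ a, H^[q] z = R a z) :
    ClosableAt n N r F z :=
  toral hR L F hF z hz hc

end Pool.Agent.Results.MP_1e8d1a_an.NilAffineClosing
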