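import Pool.Agent.R196.LocMain

/-!
# The `C^r` closing lemma with prescribed support on homogeneous periodic submanifolds

`V n = ℝⁿ`, `DiffM n N r = Diff^r(N)`, `strongTop n N r` is its strong (Whitney) `C^r` topology (the
usual one, `N` being compact), `IsPer G z`: `z` is periodic for `G` (`Pool/Agent/H718R2/G0.lean`);
`IsLieAction n N ι O act`: smooth action of a compact Lie group on the open set `O ⊆ N`
(`Pool/Agent/TH80/CLX/Defs.lean`); `IsHomPerOf n N F m z`: a compact Lie group `G` acts smoothly on an
open set `O` containing `z`, the orbit `C = G z` is periodic under `F` with period `m` and `F^m` commutes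
on `C` with the action, elsewhere `F` is arbitrary (`Pool/Agent/R196/LocMain.lean`).

For example `C` may be an invariant torus on which `F` is a (rational or irrational) translation.
The perturbation is supported in an arbitrary open set `W` which meets the orbit of `z` under `F^m`
(equivalently, its closure); in general, `C^2` closing by perturbations with prescribed support is
impossible (Gutierrez).  Proof: push along a one-parameter subgroup in `W`; the displacements add up,
and the intermediate value theorem makes the total displacement compensate exactly a power of the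
translation.
-/

set_option autoImplicit false

open scoped Manifold ContDiff Topology

namespace Pool.Agent.Results.MP_1e8d1a_an.PrescribedSupport

open Pool.Agent.H718R2.G Pool.Agent.R196.Loc

/-- Let `N` be a closed manifold, `1 ≤ r ≤ ∞`, `F ∈ Diff^r(N)`, and let `z` lie on a homogeneous periodic
submanifold of `F` of period `m`. Let `W` be an open set which contains some `F^(m l)(z)`, `l ≥ 0`. Then
every neighbourhood of `F` in `Diff^r(N)` contains some `G` which is equal to `F` outside of `W` and for
which `z` is periodic. -/
theorem result {n : ℕ} {N : Type*} [TopologicalSpace N] [T2Space N] [CompactSpace N]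
    [ChartedSpace (V n) N] [IsManifold (𝓡 n) ∞ N] (r : ℕ∞) (hr : 1 ≤ r) (F : DiffM n N r)
    (m : ℕ) (z : N) (h : IsHomPerOf n N F m z)
    (W : Set N) (hWo : IsOpen W) (hW : ∃ l : ℕ, F^[m * l] z ∈ W)
    (U : Set (DiffM n N r)) (hU : IsOpen[strongTop n N r] U) (hF : F ∈ U) :
    ∃ G ∈ U, (∀ y, y ∉ W → G y = F y) ∧ IsPer G z := by
  obtain ⟨G, hG, hp, hs⟩ := support_closing r hr F m z h W hWo hW U hU hF
  exact ⟨G, hG, hs, hp⟩

end Pool.Agent.Results.MP_1e8d1a_an.PrescribedSupport
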