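import Pool.Agent.R774.Cl5

/-!
# The `C^r` closing lemma for diffeomorphisms which are hyperbolic transversally to a commuting action

`V n = ℝⁿ`, `DiffM n N r = Diff^r(N)`, `strongTop n N r` is its strong (Whitney) `C^r` topology (the
usual one, `N` being compact), `IsPer G z`: `z` is periodic for `G` (`Pool/Agent/H718R2/G0.lean`).

`HypSet F Φ K e B` (`Pool/Agent/R774/ClStmt.lean`): `K` is closed, `F K ⊆ K`, near `K` the map `F`
commutes with the smooth action `Φ` of `ℝᵏ`, which is locally free on `K`, and on `K` the map `F` is
hyperbolic transversally to the orbits of `Φ`: the quadratic forms `Q_x(v) = B_x (De v, De v)` (of any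
signature) do not change in the direction of the orbits and increase strictly under `DF` on all other
vectors. `ChainRecOn F K z`: `z` is chain recurrent for the restriction of `F` to `K`.
-/

set_option autoImplicit false

open scoped Manifold ContDiff Topology

namespace Pool.Agent.Results.MP_1e8d1a_an.TransverseHyperbolicClosing

open Pool.Agent.H718R2.G Pool.Agent.R774.ClStmt

/-- Let `N` be a closed manifold, `1 ≤ r ≤ ∞`, `F ∈ Diff^r(N)` and `z ∈ N`. Suppose that arbitrarily
`C^r`-close to `F` there are diffeomorphisms `F'` (for example `F' = F`) for which `z` is chain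
recurrent in a closed invariant set `K`, such that near `K` the map `F'` commutes with a smooth action of
some `ℝᵏ`, locally free on `K`, and `F'` is hyperbolic on `K` transversally to the orbits. Then the
conclusion of the `C^r` closing lemma holds for `F` at `z`. -/
theorem result {n : ℕ} {N : Type*} [TopologicalSpace N] [T2Space N] [CompactSpace N]
    [ChartedSpace (V n) N] [IsManifold (𝓡 n) ∞ N] (r : ℕ∞) (hr : 1 ≤ r) (F : DiffM n N r) (z : N)
    (h : ∀ U : Set (DiffM n N r), IsOpen[strongTop n N r] U → F ∈ U →
      ∃ (F' : DiffM n N r) (k m : ℕ) (Φ : V k → N → N) (K : Set N) (e : N → V m)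
        (B : N → V m →L[ℝ] V m →L[ℝ] ℝ),
        F' ∈ U ∧ HypSet (n := n) F' Φ K e B ∧ ChainRecOn F' K z) :
    ∀ U : Set (DiffM n N r), IsOpen[strongTop n N r] U → F ∈ U → ∃ G ∈ U, IsPer G z := by
  intro U hU hFU
  obtain ⟨F', k, m, Φ, K, e, B, hF', hyp, hz⟩ := h U hU hFU
  exact closable r hr F' hyp hz U hU hF'

end Pool.Agent.Results.MP_1e8d1a_an.TransverseHyperbolicClosing
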